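import Mathlib

/-!
# Star subalgebras of matrix algebras are products of matrix algebras

Every star subalgebra `S` of `M_n(ℂ)` is the image of an isometric star homomorphism of a finite
product of full matrix algebras `M_{d_i}(ℂ)`, `d_i > 0`, `∑ d_i² = dim S`.
-/

set_option autoImplicit false

open scoped Matrix.Norms.L2Operator Matrix ComplexOrder
open Finset

namespace Pool.Agent.Q293.SPN

/-- a Hermitian matrix with a vanishing power vanishes -/
theorem herm_pow_zero {n : Type} [Fintype n] [DecidableEq n] (H : Matrix n n ℂ) (hH : Hᴴ = H) :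
    ∀ m : ℕ, H ^ m = 0 → H = 0 ∨ m = 0 := by
  intro m
  induction m using Nat.strong_induction_on with
  | _ m ih =>
    intro hm
    rcases Nat.eq_zero_or_pos m with h0 | h0
    · exact Or.inr h0
    · rcases Nat.lt_or_ge m 2 with h1 | h1
      · have : m = 1 := by omega
        rw [this, pow_one] at hm
        exact Or.inl hm
      · -- k = ⌈m/2⌉ < m
        obtain ⟨k, hk⟩ : ∃ k, k = (m + 1) / 2 := ⟨_, rfl⟩
        have hk1 : k < m := by omega
        have hk2 : m ≤ k + k := by omega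
        have hk3 : 1 ≤ k := by omega
        have h2 : (H ^ k)ᴴ * H ^ k = 0 := by
          rw [Matrix.conjTranspose_pow, hH, ← pow_add]
          rw [show k + k = m + (k + k - m) by omega, pow_add, hm, zero_mul]
        have h3 : H ^ k = 0 := Matrix.conjTranspose_mul_self_eq_zero.mp h2
        rcases ih k hk1 h3 with h4 | h4
        · exact Or.inl h4
        · omega

theorem semisimple {n : Type} [Fintype n] [DecidableEq n]
    (S : StarSubalgebra ℂ (Matrix n n ℂ)) : IsSemisimpleRing S := by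
  have : Module.Finite ℂ S := inferInstanceAs (Module.Finite ℂ S.toSubalgebra.toSubmodule)
  have : IsArtinianRing S := IsArtinianRing.of_finite ℂ S
  rw [IsArtinianRing.isSemisimpleRing_iff_jacobson]
  rw [eq_bot_iff]
  intro x hx
  obtain ⟨m, hm⟩ := (IsSemiprimaryRing.isNilpotent (R := S))
  have h1 : star x * x ∈ Ring.jacobson S := (Ring.jacobson S).mul_mem_left _ hx
  have h2 : (star x * x) ^ m = 0 := by
    have h3 : (star x * x) ^ m ∈ (Ring.jacobson S) ^ m := Ideal.pow_mem_pow h1 m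
    rw [hm] at h3
    simpa using h3
  have h4 : ((x : Matrix n n ℂ)ᴴ * (x : Matrix n n ℂ)) ^ m = 0 := by
    have := congrArg (fun y : S => (y : Matrix n n ℂ)) h2
    simpa [Matrix.star_eq_conjTranspose] using this
  rcases herm_pow_zero _ (by rw [Matrix.conjTranspose_mul, Matrix.conjTranspose_conjTranspose]) m h4
    with h5 | h5
  · have h6 : (x : Matrix n n ℂ) = 0 := Matrix.conjTranspose_mul_self_eq_zero.mp h5
    have h7 : x = 0 := Subtype.ext h6
    rw [h7]
    exact Submodule.zero_mem _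
  · rw [h5, pow_zero] at h4
    have h8 : (x : Matrix n n ℂ) = 0 := by
      calc (x : Matrix n n ℂ) = x * 1 := (mul_one _).symm
        _ = 0 := by rw [h4, mul_zero]
    have h7 : x = 0 := Subtype.ext h8
    rw [h7]
    exact Submodule.zero_mem _

section fix

variable {n : Type} [Fintype n] [DecidableEq n] {S : StarSubalgebra ℂ (Matrix n n ℂ)}
  {k : ℕ} {d : Fin k → ℕ} (Ψ : S ≃ₐ[ℂ] ((i : Fin k) → Matrix (Fin (d i)) (Fin (d i)) ℂ))
  (i : Fin k) (o : Fin (d i))

/-- the elements of `S` with one entry in the first column of the block `i` -/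
noncomputable def xx (b : Fin (d i)) : S := Ψ.symm (Pi.single i (Matrix.single b o 1))

theorem mul_xx (s : S) (b : Fin (d i)) : s * xx Ψ i o b = ∑ a, Ψ s i a b • xx Ψ i o a := by
  apply Ψ.injective
  rw [map_mul, map_sum]
  simp only [xx, map_smul, AlgEquiv.apply_symm_apply]
  ext j u v
  by_cases hj : j = i
  · subst hj
    rw [Pi.mul_apply, Pi.single_eq_same, Finset.sum_apply, Matrix.sum_apply]
    simp only [Pi.smul_apply, Pi.single_eq_same, Matrix.smul_apply, smul_eq_mul]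
    rw [Matrix.mul_apply]
    simp only [Matrix.single_apply]
    by_cases hv : o = v
    · subst hv
      simp
    · simp [hv]
  · rw [Pi.mul_apply, Pi.single_eq_of_ne hj, Finset.sum_apply, Matrix.sum_apply, mul_zero]
    simp [Pi.single_eq_of_ne hj]

/-- the Gram matrix -/
noncomputable def gram : Matrix (Fin (d i)) (Fin (d i)) ℂ :=
  Matrix.of fun a b => ((xx Ψ i o a : Matrix n n ℂ)ᴴ * (xx Ψ i o b : Matrix n n ℂ)).trace

theorem gram_mul (s : S) (c b : Fin (d i)) : (gram Ψ i o * Ψ s i) c b =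
    ((xx Ψ i o c : Matrix n n ℂ)ᴴ * ((s : Matrix n n ℂ) * (xx Ψ i o b : Matrix n n ℂ))).trace := by
  have h1 : ((s : Matrix n n ℂ) * (xx Ψ i o b : Matrix n n ℂ)) =
      ∑ a, Ψ s i a b • (xx Ψ i o a : Matrix n n ℂ) := by
    have := congrArg (fun y : S => (y : Matrix n n ℂ)) (mul_xx Ψ i o s b)
    simpa using this
  rw [h1, Matrix.mul_sum, Matrix.trace_sum, Matrix.mul_apply]
  refine Finset.sum_congr rfl fun a _ => ?_
  rw [Matrix.mul_smul, Matrix.trace_smul, smul_eq_mul, mul_comm]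
  rfl

theorem mul_gram (s : S) (c b : Fin (d i)) : ((Ψ (star s) i)ᴴ * gram Ψ i o) c b =
    ((xx Ψ i o c : Matrix n n ℂ)ᴴ * ((s : Matrix n n ℂ) * (xx Ψ i o b : Matrix n n ℂ))).trace := by
  have h1 : ((star s : S) : Matrix n n ℂ) * (xx Ψ i o c : Matrix n n ℂ) =
      ∑ a, Ψ (star s) i a c • (xx Ψ i o a : Matrix n n ℂ) := by
    have := congrArg (fun y : S => (y : Matrix n n ℂ)) (mul_xx Ψ i o (star s) c)
    simpa using this
  have h2 : (xx Ψ i o c : Matrix n n ℂ)ᴴ * (s : Matrix n n ℂ) =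
      (((star s : S) : Matrix n n ℂ) * (xx Ψ i o c : Matrix n n ℂ))ᴴ := by
    rw [Matrix.conjTranspose_mul]
    simp [Matrix.star_eq_conjTranspose]
  rw [← Matrix.mul_assoc, h2, h1, Matrix.conjTranspose_sum, Matrix.sum_mul, Matrix.trace_sum,
    Matrix.mul_apply]
  refine Finset.sum_congr rfl fun a _ => ?_
  rw [Matrix.conjTranspose_smul, Matrix.smul_mul, Matrix.trace_smul, smul_eq_mul]
  rfl

theorem gram_comm (s : S) : gram Ψ i o * Ψ s i = (Ψ (star s) i)ᴴ * gram Ψ i o := by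
  ext c b
  rw [gram_mul, mul_gram]

theorem gram_form (c : Fin (d i) → ℂ) : star c ⬝ᵥ (gram Ψ i o *ᵥ c) =
    ((∑ b, c b • (xx Ψ i o b : Matrix n n ℂ))ᴴ * (∑ b, c b • (xx Ψ i o b : Matrix n n ℂ))).trace := by
  rw [Matrix.conjTranspose_sum, Matrix.sum_mul, Matrix.trace_sum]
  unfold dotProduct
  refine Finset.sum_congr rfl fun a _ => ?_
  rw [Matrix.mul_sum, Matrix.trace_sum, Matrix.mulVec, dotProduct, Finset.mul_sum]
  refine Finset.sum_congr rfl fun b _ => ?_
  rw [Matrix.conjTranspose_smul, Matrix.smul_mul, Matrix.mul_smul, Matrix.trace_smul,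
    Matrix.trace_smul]
  simp only [gram, Matrix.of_apply, Pi.star_apply, smul_eq_mul]
  ring

theorem comb_ne (c : Fin (d i) → ℂ) (hc : c ≠ 0) :
    (∑ b, c b • (xx Ψ i o b : Matrix n n ℂ)) ≠ 0 := by
  intro h
  apply hc
  have h1 : (∑ b, c b • xx Ψ i o b : S) = 0 := by
    apply Subtype.ext
    simpa using h
  have h2 := congrArg Ψ h1
  rw [map_sum, map_zero] at h2
  simp only [xx, map_smul, AlgEquiv.apply_symm_apply] at h2
  funext a
  have h3 := congrFun h2 i
  have h4 := congrFun (congrFun h3 a) o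
  rw [Finset.sum_apply, Matrix.sum_apply] at h4
  simpa [Matrix.single_apply, Matrix.smul_apply, Pi.smul_apply] using h4

theorem gram_posSemidef : (gram Ψ i o).PosSemidef := by
  refine Matrix.PosSemidef.of_dotProduct_mulVec_nonneg ?_ fun c => ?_
  · ext a b
    simp only [gram, Matrix.conjTranspose_apply, Matrix.of_apply]
    rw [← Matrix.trace_conjTranspose, Matrix.conjTranspose_mul, Matrix.conjTranspose_conjTranspose]
  · rw [gram_form]
    exact (Matrix.posSemidef_conjTranspose_mul_self _).trace_nonneg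

theorem gram_det : (gram Ψ i o).det ≠ 0 := by
  intro h
  obtain ⟨c, hc, hc2⟩ := Matrix.exists_mulVec_eq_zero_iff.mpr h
  have h1 := gram_form Ψ i o c
  rw [hc2, dotProduct_zero] at h1
  have h2 := Matrix.trace_conjTranspose_mul_self_eq_zero_iff.mp h1.symm
  exact comb_ne Ψ i o c hc h2

open scoped MatrixOrder in
theorem fixer : ∃ Q : Matrix (Fin (d i)) (Fin (d i)) ℂ, Qᴴ = Q ∧ IsUnit Q.det ∧
    Q * Q = gram Ψ i o := by
  have h0 : 0 ≤ gram Ψ i o := Matrix.nonneg_iff_posSemidef.mpr (gram_posSemidef Ψ i o)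
  refine ⟨CFC.sqrt (gram Ψ i o), ?_, ?_, CFC.sqrt_mul_sqrt_self _ h0⟩
  · exact (CFC.sqrt_nonneg (gram Ψ i o)).isSelfAdjoint
  · have h1 := CFC.sqrt_mul_sqrt_self (gram Ψ i o) h0
    have h2 := congrArg Matrix.det h1
    rw [Matrix.det_mul] at h2
    rw [isUnit_iff_ne_zero]
    intro h3
    rw [h3, zero_mul] at h2
    exact gram_det Ψ i o h2.symm

end fix

/-- **STR**: a star subalgebra of a matrix algebra is a product of full matrix algebras, by an
isometric star homomorphism. -/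
theorem str {n : Type} [Fintype n] [DecidableEq n] (S : StarSubalgebra ℂ (Matrix n n ℂ)) :
    ∃ (k : ℕ) (d : Fin k → ℕ)
      (Φ : ((i : Fin k) → Matrix (Fin (d i)) (Fin (d i)) ℂ) →⋆ₐ[ℂ] Matrix n n ℂ),
      (∀ i, 0 < d i) ∧ Set.range Φ = (S : Set (Matrix n n ℂ)) ∧
        ∑ i, d i ^ 2 = Module.finrank ℂ S ∧ ∀ y, ‖Φ y‖ = ‖y‖ := by
  have : Module.Finite ℂ S := inferInstanceAs (Module.Finite ℂ S.toSubalgebra.toSubmodule)
  have : IsSemisimpleRing S := semisimple S
  obtain ⟨k, d, hd, ⟨Ψ⟩⟩ := IsSemisimpleRing.exists_algEquiv_pi_matrix_of_isAlgClosed ℂ S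
  have hd0 : ∀ i, 0 < d i := fun i => Nat.pos_of_ne_zero (hd i).out
  choose Q hQ1 hQ2 hQ3 using fun i => fixer Ψ i ⟨0, hd0 i⟩
  have hc1 : ∀ i, (Q i)⁻¹ * Q i = 1 := fun i => Matrix.nonsing_inv_mul _ (hQ2 i)
  have hc2 : ∀ i, Q i * (Q i)⁻¹ = 1 := fun i => Matrix.mul_nonsing_inv _ (hQ2 i)
  -- the image of the adjoint
  have hstar : ∀ (s : S) (i : Fin k), Q i * Ψ (star s) i * (Q i)⁻¹ = (Q i * Ψ s i * (Q i)⁻¹)ᴴ := by
    intro s i
    have h1 := gram_comm Ψ i ⟨0, hd0 i⟩ (star s)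
    rw [← hQ3 i, star_star] at h1
    have hi : ((Q i)⁻¹)ᴴ = (Q i)⁻¹ := by
      rw [Matrix.conjTranspose_nonsing_inv, hQ1]
    rw [Matrix.conjTranspose_mul, Matrix.conjTranspose_mul, hQ1, hi]
    calc Q i * Ψ (star s) i * (Q i)⁻¹
        = (Q i)⁻¹ * (Q i * Q i * Ψ (star s) i) * (Q i)⁻¹ := by
          rw [← Matrix.mul_assoc, ← Matrix.mul_assoc, hc1, Matrix.one_mul]
      _ = (Q i)⁻¹ * ((Ψ s i)ᴴ * (Q i * Q i)) * (Q i)⁻¹ := by rw [h1]
      _ = (Q i)⁻¹ * ((Ψ s i)ᴴ * Q i) * (Q i * (Q i)⁻¹) := by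
          simp only [Matrix.mul_assoc]
      _ = (Q i)⁻¹ * ((Ψ s i)ᴴ * Q i) := by rw [hc2, Matrix.mul_one]
  -- the homomorphism
  let g : ((i : Fin k) → Matrix (Fin (d i)) (Fin (d i)) ℂ) → S :=
    fun y => Ψ.symm fun i => (Q i)⁻¹ * y i * Q i
  have hg : ∀ y i, Q i * Ψ (g y) i * (Q i)⁻¹ = y i := by
    intro y i
    simp only [g, AlgEquiv.apply_symm_apply]
    calc Q i * ((Q i)⁻¹ * y i * Q i) * (Q i)⁻¹ = (Q i * (Q i)⁻¹) * y i * (Q i * (Q i)⁻¹) := by
          simp only [Matrix.mul_assoc]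
      _ = y i := by rw [hc2, Matrix.one_mul, Matrix.mul_one]
  have hg' : ∀ (s : S) (y : (i : Fin k) → Matrix (Fin (d i)) (Fin (d i)) ℂ),
      (∀ i, Q i * Ψ s i * (Q i)⁻¹ = y i) → s = g y := by
    intro s y h
    apply Ψ.injective
    funext i
    simp only [g, AlgEquiv.apply_symm_apply]
    rw [← h i]
    calc Ψ s i = ((Q i)⁻¹ * Q i) * Ψ s i * ((Q i)⁻¹ * Q i) := by
          rw [hc1, Matrix.one_mul, Matrix.mul_one]
      _ = (Q i)⁻¹ * (Q i * Ψ s i * (Q i)⁻¹) * Q i := by simp only [Matrix.mul_assoc]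
  have hmul : ∀ y z, g (y * z) = g y * g z := by
    intro y z
    refine (hg' _ _ fun i => ?_).symm
    rw [map_mul, Pi.mul_apply, Pi.mul_apply, ← hg y i, ← hg z i]
    calc Q i * (Ψ (g y) i * Ψ (g z) i) * (Q i)⁻¹
        = Q i * Ψ (g y) i * ((Q i)⁻¹ * Q i) * Ψ (g z) i * (Q i)⁻¹ := by
          rw [hc1]; simp only [Matrix.mul_one, Matrix.mul_assoc]
      _ = _ := by simp only [Matrix.mul_assoc]
  have hadd : ∀ y z, g (y + z) = g y + g z := by
    intro y z
    refine (hg' _ _ fun i => ?_).symm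
    rw [map_add, Pi.add_apply, Pi.add_apply, Matrix.mul_add, Matrix.add_mul, hg, hg]
  have hone : g 1 = 1 := by
    refine (hg' _ _ fun i => ?_).symm
    rw [map_one, Pi.one_apply, Matrix.mul_one, hc2]
  have hzero : g 0 = 0 := by
    refine (hg' _ _ fun i => ?_).symm
    rw [map_zero, Pi.zero_apply, Matrix.mul_zero, Matrix.zero_mul]
  have halg : ∀ c : ℂ, g (algebraMap ℂ _ c) = algebraMap ℂ S c := by
    intro c
    refine (hg' _ _ fun i => ?_).symm
    rw [AlgEquiv.commutes, Pi.algebraMap_apply, Algebra.algebraMap_eq_smul_one, Matrix.mul_smul,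
      Matrix.smul_mul, Matrix.mul_one, hc2]
  have hst : ∀ y, g (star y) = star (g y) := by
    intro y
    refine (hg' _ _ fun i => ?_).symm
    rw [hstar, hg]
    rfl
  let Φ : ((i : Fin k) → Matrix (Fin (d i)) (Fin (d i)) ℂ) →⋆ₐ[ℂ] Matrix n n ℂ :=
    { toFun := fun y => (g y : Matrix n n ℂ)
      map_one' := by rw [hone]; rfl
      map_mul' := fun y z => by rw [hmul]; rfl
      map_zero' := by rw [hzero]; rfl
      map_add' := fun y z => by rw [hadd]; rfl
      commutes' := fun c => by rw [halg]; rfl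
      map_star' := fun y => by rw [hst]; rfl }
  have hinj : Function.Injective Φ := by
    intro y z h
    have h1 : g y = g z := Subtype.ext h
    funext i
    rw [← hg y i, ← hg z i, h1]
  refine ⟨k, d, Φ, hd0, ?_, ?_, fun y => NonUnitalStarAlgHom.norm_map Φ hinj y⟩
  · ext x
    constructor
    · rintro ⟨y, rfl⟩
      exact (g y).2
    · intro hx
      exact ⟨fun i => Q i * Ψ ⟨x, hx⟩ i * (Q i)⁻¹,
        (congrArg (fun s : S => (s : Matrix n n ℂ)) (hg' ⟨x, hx⟩ _ fun i => rfl)).symm⟩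
  · rw [Ψ.toLinearEquiv.finrank_eq, Module.finrank_pi_fintype]
    refine Finset.sum_congr rfl fun i _ => ?_
    rw [Module.finrank_matrix]
    simp [sq]

end Pool.Agent.Q293.SPN
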