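import Pool.Agent.Q98.SPN.Stm
import Pool.Agent.Q293.SPN.Str

/-!
# The matrix Spencer bound in star subalgebras

From `S_MAIN` (blocks) and the structure theorem `str`.
-/

set_option autoImplicit false

open scoped Matrix.Norms.L2Operator Matrix
open Finset

namespace Pool.Agent.Q293.SPN

open Pool.Agent.Q98.SPN (gf S_MAIN)

/-- the complexification of a real matrix -/
def cpx {m : Type} (A : Matrix m m ℝ) : Matrix m m ℂ := A.map fun x : ℝ => (x : ℂ)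

theorem sq_norm_mulVec {𝕜 : Type} [RCLike 𝕜] {m : Type} [Fintype m] [DecidableEq m]
    (A : Matrix m m 𝕜) (v : EuclideanSpace 𝕜 m) :
    ‖Matrix.toEuclideanCLM (𝕜 := 𝕜) A v‖ ^ 2 = ∑ i, ‖(A *ᵥ v.ofLp) i‖ ^ 2 := by
  rw [EuclideanSpace.norm_sq_eq]
  rfl

/-- the operator norm of a real matrix is at most the one of its complexification -/
theorem norm_le_cpx {m : Type} [Fintype m] [DecidableEq m] (A : Matrix m m ℝ) :
    ‖Matrix.toEuclideanCLM (𝕜 := ℝ) A‖ ≤ ‖cpx A‖ := by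
  refine ContinuousLinearMap.opNorm_le_bound _ (norm_nonneg _) fun v => ?_
  obtain ⟨w, hw⟩ : ∃ w : EuclideanSpace ℂ m, w = WithLp.toLp 2 fun i => (v.ofLp i : ℂ) := ⟨_, rfl⟩
  have h1 : ‖Matrix.toEuclideanCLM (𝕜 := ℂ) (cpx A) w‖ ≤ ‖cpx A‖ * ‖w‖ := by
    exact (Matrix.toEuclideanCLM (𝕜 := ℂ) (cpx A)).le_opNorm w
  have h2 : ‖w‖ ^ 2 = ‖v‖ ^ 2 := by
    rw [EuclideanSpace.norm_sq_eq, EuclideanSpace.norm_sq_eq]
    refine Finset.sum_congr rfl fun i _ => ?_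
    rw [hw]
    simp
  have h3 : ‖Matrix.toEuclideanCLM (𝕜 := ℂ) (cpx A) w‖ ^ 2 =
      ‖Matrix.toEuclideanCLM (𝕜 := ℝ) A v‖ ^ 2 := by
    rw [sq_norm_mulVec, sq_norm_mulVec]
    refine Finset.sum_congr rfl fun i _ => ?_
    have : (cpx A *ᵥ w.ofLp) i = (((A *ᵥ v.ofLp) i : ℝ) : ℂ) := by
      rw [hw]
      simp [cpx, Matrix.mulVec, dotProduct, Matrix.map_apply]
    rw [this, Complex.norm_real]
  have h4 : ‖w‖ = ‖v‖ := by
    rwa [sq_eq_sq₀ (norm_nonneg _) (norm_nonneg _)] at h2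
  have h5 : ‖Matrix.toEuclideanCLM (𝕜 := ℂ) (cpx A) w‖ = ‖Matrix.toEuclideanCLM (𝕜 := ℝ) A v‖ := by
    rwa [sq_eq_sq₀ (norm_nonneg _) (norm_nonneg _)] at h3
  rw [← h5, ← h4]
  exact h1

/-- the operator norm of the complexification is at most the one of the real matrix -/
theorem norm_cpx_le {m : Type} [Fintype m] [DecidableEq m] (A : Matrix m m ℝ) :
    ‖cpx A‖ ≤ ‖Matrix.toEuclideanCLM (𝕜 := ℝ) A‖ := by
  rw [Matrix.l2_opNorm_def]
  refine ContinuousLinearMap.opNorm_le_bound _ (norm_nonneg _) fun w => ?_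
  obtain ⟨u, hu⟩ : ∃ u : EuclideanSpace ℝ m, u = WithLp.toLp 2 fun i => (w.ofLp i).re := ⟨_, rfl⟩
  obtain ⟨v, hv⟩ : ∃ v : EuclideanSpace ℝ m, v = WithLp.toLp 2 fun i => (w.ofLp i).im := ⟨_, rfl⟩
  obtain ⟨c, hc⟩ : ∃ c : ℝ, c = ‖Matrix.toEuclideanCLM (𝕜 := ℝ) A‖ := ⟨_, rfl⟩
  have hu1 : ‖Matrix.toEuclideanCLM (𝕜 := ℝ) A u‖ ≤ c * ‖u‖ := by
    rw [hc]; exact (Matrix.toEuclideanCLM (𝕜 := ℝ) A).le_opNorm u
  have hv1 : ‖Matrix.toEuclideanCLM (𝕜 := ℝ) A v‖ ≤ c * ‖v‖ := by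
    rw [hc]; exact (Matrix.toEuclideanCLM (𝕜 := ℝ) A).le_opNorm v
  have hw2 : ‖w‖ ^ 2 = ‖u‖ ^ 2 + ‖v‖ ^ 2 := by
    rw [EuclideanSpace.norm_sq_eq, EuclideanSpace.norm_sq_eq, EuclideanSpace.norm_sq_eq,
      ← Finset.sum_add_distrib]
    refine Finset.sum_congr rfl fun i _ => ?_
    rw [hu, hv, Complex.sq_norm, Complex.normSq_apply]
    simp [sq]
  have hA2 : ‖Matrix.toEuclideanCLM (𝕜 := ℂ) (cpx A) w‖ ^ 2 =
      ‖Matrix.toEuclideanCLM (𝕜 := ℝ) A u‖ ^ 2 + ‖Matrix.toEuclideanCLM (𝕜 := ℝ) A v‖ ^ 2 := by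
    rw [sq_norm_mulVec, sq_norm_mulVec, sq_norm_mulVec, ← Finset.sum_add_distrib]
    refine Finset.sum_congr rfl fun i _ => ?_
    have h1 : ((cpx A *ᵥ w.ofLp) i).re = (A *ᵥ u.ofLp) i := by
      rw [hu]
      simp [cpx, Matrix.mulVec, dotProduct, Matrix.map_apply]
    have h2 : ((cpx A *ᵥ w.ofLp) i).im = (A *ᵥ v.ofLp) i := by
      rw [hv]
      simp [cpx, Matrix.mulVec, dotProduct, Matrix.map_apply]
    rw [Complex.sq_norm, Complex.normSq_apply, h1, h2, Real.norm_eq_abs, Real.norm_eq_abs, sq_abs,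
      sq_abs]
    ring
  have hc0 : 0 ≤ c := hc ▸ norm_nonneg _
  have h6 : ‖Matrix.toEuclideanCLM (𝕜 := ℂ) (cpx A) w‖ ^ 2 ≤ (c * ‖w‖) ^ 2 := by
    rw [hA2, mul_pow, hw2]
    have e1 : ‖Matrix.toEuclideanCLM (𝕜 := ℝ) A u‖ ^ 2 ≤ (c * ‖u‖) ^ 2 :=
      pow_le_pow_left₀ (norm_nonneg _) hu1 2
    have e2 : ‖Matrix.toEuclideanCLM (𝕜 := ℝ) A v‖ ^ 2 ≤ (c * ‖v‖) ^ 2 :=
      pow_le_pow_left₀ (norm_nonneg _) hv1 2
    nlinarith
  rw [← hc]
  exact (sq_le_sq₀ (norm_nonneg _) (by positivity)).mp h6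

/-- the square root of `gf` -/
theorem sqrt_gf (N x : ℝ) (hx : 0 ≤ x) :
    Real.sqrt (gf N x) = Real.sqrt x * max 1 (Real.sqrt (Real.log (N / x))) := by
  unfold gf
  rw [Real.sqrt_mul hx]
  congr 1
  rcases le_total 1 (Real.log (N / x)) with h | h
  · rw [max_eq_right h, max_eq_right]
    rw [Real.one_le_sqrt]
    exact h
  · rw [max_eq_left h, Real.sqrt_one, max_eq_left]
    rw [Real.sqrt_le_one]
    exact h

/-- **Matrix Spencer in star subalgebras** (complex matrices). -/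
theorem complex_spencer (hM : S_MAIN) {m : Type} [Fintype m] [DecidableEq m]
    (S : StarSubalgebra ℂ (Matrix m m ℂ)) (J : Type) [Fintype J] [DecidableEq J]
    (A : J → Matrix m m ℂ) (hS : ∀ j, A j ∈ S) (hA : ∀ j, ‖A j‖ ≤ 1) :
    ∃ ε : J → ℝ, (∀ j, ε j = 1 ∨ ε j = -1) ∧
      ‖∑ j, ((ε j : ℝ) : ℂ) • A j‖ ≤ 10 ^ 5 * Real.sqrt (Fintype.card J) *
        max 1 (Real.sqrt (Real.log ((Module.finrank ℂ S : ℝ) / (Fintype.card J : ℝ)))) := by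
  obtain ⟨k, d, Φ, hd, hr, hf, hn⟩ := str S
  have h1 : ∀ j, ∃ y, Φ y = A j := fun j => by
    have : A j ∈ Set.range Φ := by rw [hr]; exact hS j
    exact this
  choose y hy using h1
  obtain ⟨N, hN⟩ : ∃ N : ℝ, N = max 1 (Module.finrank ℂ S : ℝ) := ⟨_, rfl⟩
  have hN0 : 0 < N := by rw [hN]; exact lt_max_of_lt_left one_pos
  have hN1 : ((∑ i, d i ^ 2 : ℕ) : ℝ) ≤ N := by rw [hf, hN]; exact le_max_right _ _
  obtain ⟨ε, hε, hb⟩ := hM (Fin k) d N hN0 hN1 J y fun j i => by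
    refine (norm_le_pi_norm (y j) i).trans ?_
    rw [← hn, hy]
    exact hA j
  refine ⟨ε, hε, ?_⟩
  have h2 : ∑ j, ((ε j : ℝ) : ℂ) • A j = Φ (∑ j, ((ε j : ℝ) : ℂ) • y j) := by
    rw [map_sum]
    refine Finset.sum_congr rfl fun j _ => ?_
    rw [map_smul, hy]
  rw [h2, hn]
  have h3 : 10 ^ 5 * Real.sqrt (gf N (Fintype.card J)) ≤ 10 ^ 5 * Real.sqrt (Fintype.card J) *
        max 1 (Real.sqrt (Real.log ((Module.finrank ℂ S : ℝ) / (Fintype.card J : ℝ)))) := by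
    rw [sqrt_gf _ _ (Nat.cast_nonneg _), mul_assoc]
    refine mul_le_mul_of_nonneg_left (mul_le_mul_of_nonneg_left ?_ (Real.sqrt_nonneg _))
      (by positivity)
    rcases Nat.eq_zero_or_pos (Fintype.card J) with h0 | h0
    · rw [h0]
      simp
    have hJ : (1 : ℝ) ≤ Fintype.card J := by exact_mod_cast h0
    rcases le_total (1 : ℝ) (Module.finrank ℂ S : ℝ) with h | h
    · rw [hN, max_eq_right h]
    · rw [hN, max_eq_left h]
      have : Real.log (1 / (Fintype.card J : ℝ)) ≤ 0 :=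
        Real.log_nonpos (by positivity) ((div_le_one (by linarith)).mpr hJ)
      rw [Real.sqrt_eq_zero_of_nonpos this, max_eq_left zero_le_one]
      exact le_max_left _ _
  refine le_trans ?_ h3
  rw [pi_norm_le_iff_of_nonneg (by positivity)]
  intro i
  have h4 : (∑ j, ((ε j : ℝ) : ℂ) • y j) i = ∑ j, ((ε j : ℝ) : ℂ) • y j i := by
    rw [Finset.sum_apply]
    rfl
  rw [h4]
  exact hb i

/-- **Matrix Spencer in star subalgebras** (real matrices), in the form of the question. -/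
theorem real_spencer (hM : S_MAIN) {m : Type} [Fintype m] [DecidableEq m]
    (S : StarSubalgebra ℂ (Matrix m m ℂ)) (J : Type) [Fintype J] [DecidableEq J]
    (A : J → Matrix m m ℝ) (hS : ∀ j, cpx (A j) ∈ S)
    (hA : ∀ j, ‖Matrix.toEuclideanCLM (𝕜 := ℝ) (A j)‖ ≤ 1) :
    ∃ ε : J → ℝ, (∀ j, ε j = 1 ∨ ε j = -1) ∧
      ‖Matrix.toEuclideanCLM (𝕜 := ℝ) (∑ j, ε j • A j)‖ ≤ 10 ^ 5 * Real.sqrt (Fintype.card J) *
        max 1 (Real.sqrt (Real.log ((Module.finrank ℂ S : ℝ) / (Fintype.card J : ℝ)))) := by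
  obtain ⟨ε, hε, hb⟩ := complex_spencer hM S J (fun j => cpx (A j)) hS fun j =>
    (norm_cpx_le (A j)).trans (hA j)
  refine ⟨ε, hε, (norm_le_cpx _).trans ?_⟩
  have h1 : cpx (∑ j, ε j • A j) = ∑ j, ((ε j : ℝ) : ℂ) • cpx (A j) := by
    ext a b
    simp [cpx, Matrix.map_apply, Matrix.sum_apply]
  rw [h1]
  exact hb

end Pool.Agent.Q293.SPN
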