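import Pool.Agent.Q293.SPN.Fin

/-!
# Group Spencer for all finite groups

The matrices over a finite group `G` that are invariant under right translations (the images of the
elements of the group algebra under the left regular representation) form a star subalgebra of
dimension `|G|`.
-/

set_option autoImplicit false

open scoped Matrix.Norms.L2Operator Matrix
open Finset

namespace Pool.Agent.Q293.SPN

open Pool.Agent.Q98.SPN (S_MAIN)

/-- the matrices over `G` that are invariant under right translations -/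
def invAlg (G : Type) [Group G] [Fintype G] [DecidableEq G] : StarSubalgebra ℂ (Matrix G G ℂ) where
  carrier := {M | ∀ g x y : G, M (x * g) (y * g) = M x y}
  mul_mem' := by
    intro M N hM hN g x y
    rw [Matrix.mul_apply, Matrix.mul_apply]
    rw [← Equiv.sum_comp (Equiv.mulRight g)]
    refine Finset.sum_congr rfl fun z _ => ?_
    rw [Equiv.coe_mulRight, hM, hN]
  one_mem' := by
    intro g x y
    simp [Matrix.one_apply]
  add_mem' := by
    intro M N hM hN g x y
    rw [Matrix.add_apply, Matrix.add_apply, hM, hN]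
  zero_mem' := by
    intro g x y
    rfl
  algebraMap_mem' := by
    intro r g x y
    simp [Matrix.algebraMap_matrix_apply]
  star_mem' := by
    intro M hM g x y
    rw [Matrix.star_apply, Matrix.star_apply, hM]

theorem mem_invAlg {G : Type} [Group G] [Fintype G] [DecidableEq G] {M : Matrix G G ℂ} :
    M ∈ invAlg G ↔ ∀ g x y : G, M (x * g) (y * g) = M x y := Iff.rfl

/-- an invariant matrix is determined by its column at `1` -/
def invEquiv (G : Type) [Group G] [Fintype G] [DecidableEq G] : invAlg G ≃ₗ[ℂ] (G → ℂ) where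
  toFun M := fun x => (M : Matrix G G ℂ) x 1
  map_add' M N := rfl
  map_smul' c M := rfl
  invFun f := ⟨Matrix.of fun x y => f (x * y⁻¹), by
    intro g x y
    simp [mul_assoc]⟩
  left_inv M := by
    apply Subtype.ext
    ext x y
    have h := M.2 y (x * y⁻¹) 1
    simp only [Matrix.of_apply]
    rw [inv_mul_cancel_right, one_mul] at h
    exact h.symm
  right_inv f := by
    funext x
    simp

theorem finrank_invAlg (G : Type) [Group G] [Fintype G] [DecidableEq G] :
    Module.finrank ℂ (invAlg G) = Fintype.card G := by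
  rw [(invEquiv G).finrank_eq, Module.finrank_fintype_fun_eq_card]

/-- **Spencer in the group algebra** of a finite group: any number of real contractions that are
invariant under right translations. -/
theorem group_spencer (hM : S_MAIN) (G : Type) [Group G] [Fintype G] [DecidableEq G]
    (J : Type) [Fintype J] [DecidableEq J] (A : J → Matrix G G ℝ)
    (hS : ∀ j, ∀ g x y : G, A j (x * g) (y * g) = A j x y)
    (hA : ∀ j, ‖Matrix.toEuclideanCLM (𝕜 := ℝ) (A j)‖ ≤ 1) :
    ∃ ε : J → ℝ, (∀ j, ε j = 1 ∨ ε j = -1) ∧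
      ‖Matrix.toEuclideanCLM (𝕜 := ℝ) (∑ j, ε j • A j)‖ ≤ 10 ^ 5 * Real.sqrt (Fintype.card J) *
        max 1 (Real.sqrt (Real.log ((Fintype.card G : ℝ) / (Fintype.card J : ℝ)))) := by
  have h := real_spencer hM (invAlg G) J A (fun j => mem_invAlg.mpr fun g x y => by
    simp only [cpx, Matrix.map_apply]
    rw [hS]) hA
  rwa [finrank_invAlg] at h

/-- the norm of a weighted permutation matrix of a left translation -/
theorem norm_reg_le (G : Type) [Group G] [Fintype G] [DecidableEq G] (g : G) (c : ℝ)
    (hc : |c| ≤ 1) : ‖Matrix.toEuclideanCLM (𝕜 := ℝ)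
      (c • Matrix.of fun x y : G => if g * y = x then (1 : ℝ) else 0)‖ ≤ 1 := by
  refine ContinuousLinearMap.opNorm_le_bound _ zero_le_one fun v => ?_
  rw [one_mul]
  have h1 : ∀ x : G, ((c • Matrix.of fun x y : G => if g * y = x then (1 : ℝ) else 0) *ᵥ v.ofLp) x =
      c * v.ofLp (g⁻¹ * x) := by
    intro x
    rw [Matrix.smul_mulVec, Pi.smul_apply, smul_eq_mul]
    congr 1
    rw [Matrix.mulVec, dotProduct, Finset.sum_eq_single (g⁻¹ * x)]
    · simp
    · intro y _ hy
      rw [Matrix.of_apply, if_neg, zero_mul]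
      intro h
      apply hy
      rw [← h, inv_mul_cancel_left]
    · intro h
      exact absurd (Finset.mem_univ _) h
  have h2 : ‖Matrix.toEuclideanCLM (𝕜 := ℝ)
      (c • Matrix.of fun x y : G => if g * y = x then (1 : ℝ) else 0) v‖ ^ 2 ≤ ‖v‖ ^ 2 := by
    rw [sq_norm_mulVec, EuclideanSpace.norm_sq_eq, ← Equiv.sum_comp (Equiv.mulLeft g)]
    refine Finset.sum_le_sum fun x _ => ?_
    rw [Equiv.coe_mulLeft, h1, inv_mul_cancel_left, norm_mul, mul_pow]
    have h3 : ‖c‖ ^ 2 ≤ 1 := by
      rw [Real.norm_eq_abs]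
      exact pow_le_one₀ (abs_nonneg _) hc
    have h4 : (0:ℝ) ≤ ‖v.ofLp x‖ ^ 2 := by positivity
    calc ‖c‖ ^ 2 * ‖v.ofLp x‖ ^ 2 ≤ 1 * ‖v.ofLp x‖ ^ 2 := mul_le_mul_of_nonneg_right h3 h4
      _ = _ := one_mul _
  exact (sq_le_sq₀ (norm_nonneg _) (norm_nonneg _)).mp h2

/-- **Group Spencer** for all finite groups, with coefficients. -/
theorem group_signs (hM : S_MAIN) (G : Type) [Group G] [Fintype G] [DecidableEq G] (c : G → ℝ)
    (hc : ∀ g, |c g| ≤ 1) : ∃ ε : G → ℝ, (∀ g, ε g = 1 ∨ ε g = -1) ∧
      ‖Matrix.toEuclideanCLM (𝕜 := ℝ)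
        (∑ g, (ε g * c g) • Matrix.of fun x y : G => if g * y = x then (1 : ℝ) else 0)‖ ≤
        10 ^ 5 * Real.sqrt (Fintype.card G) := by
  obtain ⟨ε, hε, h⟩ := group_spencer hM G G
    (fun g => c g • Matrix.of fun x y : G => if g * y = x then (1 : ℝ) else 0)
    (fun j g x y => by simp [← mul_assoc]) (fun g => norm_reg_le G g (c g) (hc g))
  refine ⟨ε, hε, ?_⟩
  simp only [smul_smul] at h
  refine h.trans (le_of_eq ?_)
  have h0 : (Fintype.card G : ℝ) ≠ 0 := by exact_mod_cast Fintype.card_ne_zero
  rw [div_self h0, Real.log_one, Real.sqrt_zero, max_eq_left zero_le_one, mul_one]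

end Pool.Agent.Q293.SPN
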